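import Pool.Agent.Q85.VL.Defs

/-! The Euclidean length and general lemmas for project VL. -/

set_option autoImplicit false

open MeasureTheory Set Metric
open scoped ContDiff
open H459R3.NS Pool.Agent.W268.NS Pool.Agent.Q67.VD

namespace Pool.Agent.Q88.VL

open Pool.Agent.Q85.CC Pool.Agent.Q85.CL Pool.Agent.Q151.CC Pool.Agent.Q85.VL

lemma len_eq (a : V) : len a = ‖(WithLp.toLp 2 a : EuclideanSpace ℝ (Fin 3))‖ := by
  rw [EuclideanSpace.norm_eq]
  unfold len
  congr 1
  simp only [dotProduct]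
  refine Finset.sum_congr rfl fun i _ => ?_
  simp only [Real.norm_eq_abs, sq_abs]
  ring

lemma len_nonneg (a : V) : 0 ≤ len a := Real.sqrt_nonneg _

lemma len_add (a b : V) : len (a + b) ≤ len a + len b := by
  rw [len_eq, len_eq, len_eq, WithLp.toLp_add]
  exact norm_add_le _ _

lemma len_sub_comm (a b : V) : len (a - b) = len (b - a) := by
  rw [len_eq, len_eq, WithLp.toLp_sub, WithLp.toLp_sub]
  exact norm_sub_rev _ _

lemma len_tri (a b c : V) : len (a - c) ≤ len (a - b) + len (b - c) := by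
  have := len_add (a - b) (b - c)
  rwa [sub_add_sub_cancel] at this

lemma norm_le_len (a : V) : ‖a‖ ≤ len a := by
  rw [pi_norm_le_iff_of_nonneg (len_nonneg a)]
  intro i
  rw [Real.norm_eq_abs]
  unfold len
  exact Real.abs_le_sqrt (coord_sq a i)

/-- `len a ≤ (7 / 4) ‖a‖` -/
lemma len_le_norm (a : V) : len a ≤ 7 / 4 * ‖a‖ := by
  unfold len
  rw [Real.sqrt_le_left (by positivity)]
  rw [dot3]
  have h : ∀ i, a i * a i ≤ ‖a‖ ^ 2 := by
    intro i
    have := norm_le_pi_norm a i
    rw [Real.norm_eq_abs] at this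
    have h1 := abs_nonneg (a i)
    calc a i * a i = |a i| ^ 2 := by rw [sq_abs]; ring
      _ ≤ ‖a‖ ^ 2 := by gcongr
  nlinarith [h 0, h 1, h 2, sq_nonneg ‖a‖]

end Pool.Agent.Q88.VL
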