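import Pool.Agent.Q88.VL.Len

/-! Project VL (helper85): two families of curves, pointwise part. -/

set_option autoImplicit false

open MeasureTheory Set Metric
open scoped ContDiff
open H459R3.NS Pool.Agent.W268.NS Pool.Agent.Q67.VD

namespace Pool.Agent.Q88.VL

open Pool.Agent.Q85.CC Pool.Agent.Q85.CL Pool.Agent.Q151.CC Pool.Agent.Q85.VL

lemma stp_fd (hB : StmBas) {φ : V → ℝ} {φ' : V →L[ℝ] ℝ} {y : V} (h : HasFDerivAt φ φ' y) :
    HasFDerivAt (fun y => stp (φ y)) (stp' (φ y) • φ') y :=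
  (hB.1 (φ y)).comp_hasFDerivAt y h

lemma lin_fd {φ : V → ℝ} {φ' : V →L[ℝ] ℝ} {y : V} (h : HasFDerivAt φ φ' y) (a c : ℝ) :
    HasFDerivAt (fun y => (φ y + a) / c) (c⁻¹ • φ') y := by
  have h2 := (h.add_const a).mul_const c⁻¹
  simpa only [div_eq_mul_inv] using h2

lemma ds_smooth (hB : StmBas) (x : V) {ρ : ℝ} (hρ : 0 < ρ) : ContDiff ℝ 1 (ds x ρ) :=
  (hB.2.2.2.2.2.2.2.2.2.2 x ρ hρ).1.of_le (by exact_mod_cast le_top)

lemma uu_smooth (hB : StmBas) {κ ρ : ℝ} {x : V} {g : V → ℝ} (hρ : 0 < ρ) (hg : ContDiff ℝ 1 g) :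
    ContDiff ℝ 1 (uu κ ρ g x) := by
  unfold uu
  exact (hg.sub contDiff_const).sub (contDiff_const.mul (ds_smooth hB x hρ))

lemma ww_eq (κ ρ : ℝ) (g : V → ℝ) (x : V) :
    ww κ ρ g x = fun y => uu κ ρ g x y - κ / 4 * ds x ρ y := by
  funext y
  unfold ww uu
  ring

lemma ww_smooth (hB : StmBas) {κ ρ : ℝ} {x : V} {g : V → ℝ} (hρ : 0 < ρ) (hg : ContDiff ℝ 1 g) :
    ContDiff ℝ 1 (ww κ ρ g x) := by
  rw [ww_eq]
  exact (uu_smooth hB hρ hg).sub (contDiff_const.mul (ds_smooth hB x hρ))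

lemma uu_apply (hB : StmBas) {κ ρ : ℝ} {x : V} {g : V → ℝ} (hρ : 0 < ρ) (hg : ContDiff ℝ 1 g)
    (y n : V) : fderiv ℝ (uu κ ρ g x) y n = fderiv ℝ g y n - κ / 2 * fderiv ℝ (ds x ρ) y n := by
  have h1 : HasFDerivAt g (fderiv ℝ g y) y := (hg.differentiable one_ne_zero y).hasFDerivAt
  have h2 : HasFDerivAt (ds x ρ) (fderiv ℝ (ds x ρ) y) y :=
    ((ds_smooth hB x hρ).differentiable one_ne_zero y).hasFDerivAt
  have h3 : HasFDerivAt (uu κ ρ g x) (fderiv ℝ g y - (κ / 2) • fderiv ℝ (ds x ρ) y) y :=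
    (h1.sub_const _).sub (h2.const_mul _)
  rw [h3.fderiv]
  simp

/-- the field is not slower than `κ / 2` along `u` -/
lemma uu_lo (hB : StmBas) {κ ρ R : ℝ} {x : V} {f m : V → ℝ} {W : V → V} {g : V → ℝ} (hκ : 0 < κ)
    (hρ : 0 < ρ) (h : LF κ R x f m W g) {y : V} (hy : y ∈ closedBall x R) :
    κ / 2 * f y ≤ fderiv ℝ (uu κ ρ g x) y (W y) + m y := by
  rw [uu_apply hB hρ h.gs]
  have h1 := h.lo y hy
  have h2 := h.up y hy
  have h3 := (hB.2.2.2.2.2.2.2.2.2.2 x ρ hρ).2.2.2.2.2.2.2 y (W y)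
  have h4 := (le_abs_self _).trans h3
  nlinarith [mul_le_mul_of_nonneg_left (h4.trans h2) (half_pos hκ).le]

lemma f_nonneg {κ R : ℝ} {x : V} {f m : V → ℝ} {W : V → V} {g : V → ℝ}
    (h : LF κ R x f m W g) {y : V} (hy : y ∈ closedBall x R) : 0 ≤ f y :=
  (len_nonneg _).trans (h.up y hy)

lemma ds_apply_le (hB : StmBas) {κ ρ R : ℝ} {x z : V} {f m : V → ℝ} {W : V → V} {g : V → ℝ}
    (hρ : 0 < ρ) (h : LF κ R x f m W g) {y : V} (hy : y ∈ closedBall x R) :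
    fderiv ℝ (ds z ρ) y (W y) ≤ f y :=
  (le_abs_self _).trans (((hB.2.2.2.2.2.2.2.2.2.2 z ρ hρ).2.2.2.2.2.2.2 y (W y)).trans (h.up y hy))

/-- the arithmetic of the first comparison -/
lemma num1 {P T S t s A B a b ps Tr u w v m χ c1 c2 c3 c4 : ℝ}
    (hP0 : 0 ≤ P) (hP1 : P ≤ 1) (hT0 : 0 ≤ T) (hT1 : T ≤ 1) (hS0 : 0 ≤ S) (hS1 : S ≤ 1)
    (hA0 : 0 ≤ A) (hA1 : A ≤ 1) (hB0 : 0 ≤ B) (hB1 : B ≤ 1)
    (ht0 : 0 ≤ t) (hs0 : 0 ≤ s) (ha0 : 0 ≤ a) (hb0 : 0 ≤ b) (hps : 0 ≤ ps) (hTr : 0 ≤ Tr)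
    (ht1 : t ≤ c1) (hs1 : s ≤ c2) (ha1 : a ≤ c3) (hb1 : b ≤ c4)
    (hm : 0 ≤ m) (hu : 0 ≤ u + m) (hw : -m ≤ w) (hv : -m ≤ v) (hχ : 0 ≤ χ)
    (k1 : t ≠ 0 → P ≠ 1 → χ = 1) (k2 : T * s ≠ 0 → χ = 1 ∧ P = 0 ∧ A * B = 0)
    (k3 : a ≠ 0 → P ≠ 1 → χ = 1) (k4 : A * b ≠ 0 → χ = 1 ∧ P = 0 ∧ T * S = 0)
    (k5 : ps ≠ 0 → T * S ≠ 0 ∨ A * B ≠ 0 → Tr = 1) :
    T * (s * (u + m)) + A * (b * (u + m)) - (c1 + c2 + c3 + c4) * (χ * m) ≤
      Tr * (ps * (u + m)) + (-(ps * u) * (1 - (1 - T * S) * (1 - A * B)) + (1 - P) *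
        ((1 - A * B) * (S * (t * w) + T * (s * u)) + (1 - T * S) * (B * (a * v) + A * (b * u)))) := by
  have hTS0 : 0 ≤ T * S := mul_nonneg hT0 hS0
  have hTS1 : T * S ≤ 1 := mul_le_one₀ hT1 hS0 hS1
  have hAB0 : 0 ≤ A * B := mul_nonneg hA0 hB0
  have hAB1 : A * B ≤ 1 := mul_le_one₀ hA1 hB0 hB1
  have hχm : 0 ≤ χ * m := mul_nonneg hχ hm
  have hc1 : 0 ≤ c1 := ht0.trans ht1
  have hc2 : 0 ≤ c2 := hs0.trans hs1
  have hc3 : 0 ≤ c3 := ha0.trans ha1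
  have hc4 : 0 ≤ c4 := hb0.trans hb1
  -- (i)
  have i1 : ps * u * (1 - (1 - T * S) * (1 - A * B)) ≤ Tr * (ps * (u + m)) := by
    have hY0 : 0 ≤ 1 - (1 - T * S) * (1 - A * B) := by nlinarith
    have hY1 : 1 - (1 - T * S) * (1 - A * B) ≤ 1 := by nlinarith
    have hpu : 0 ≤ ps * (u + m) := mul_nonneg hps hu
    by_cases h0 : ps = 0
    · rw [h0]; simp
    by_cases hY : T * S ≠ 0 ∨ A * B ≠ 0
    · rw [k5 h0 hY, one_mul]
      calc ps * u * (1 - (1 - T * S) * (1 - A * B))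
          ≤ ps * (u + m) * (1 - (1 - T * S) * (1 - A * B)) := by
            refine mul_le_mul_of_nonneg_right ?_ hY0
            exact mul_le_mul_of_nonneg_left (by linarith) hps
        _ ≤ ps * (u + m) * 1 := mul_le_mul_of_nonneg_left hY1 hpu
        _ = ps * (u + m) := mul_one _
    · push Not at hY
      rw [hY.1, hY.2]
      have := mul_nonneg hTr hpu
      simpa using this
  -- (ii)
  have i2 : -(c1 * (χ * m)) ≤ (1 - P) * ((1 - A * B) * (S * (t * w))) := by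
    by_cases h0 : t = 0
    · rw [h0]
      have := mul_nonneg hc1 hχm
      simp only [zero_mul, mul_zero]
      linarith
    by_cases h1 : P = 1
    · rw [h1]
      have := mul_nonneg hc1 hχm
      simp only [sub_self, zero_mul]
      linarith
    rw [k1 h0 h1, one_mul]
    have e1 : -(c1 * m) ≤ t * w := by
      have : t * (-m) ≤ t * w := mul_le_mul_of_nonneg_left hw ht0
      have h3 : t * m ≤ c1 * m := mul_le_mul_of_nonneg_right ht1 hm
      linarith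
    have hq0 : 0 ≤ (1 - P) * ((1 - A * B) * S) :=
      mul_nonneg (by linarith) (mul_nonneg (by linarith) hS0)
    have hq1 : (1 - P) * ((1 - A * B) * S) ≤ 1 :=
      mul_le_one₀ (by linarith) (mul_nonneg (by linarith) hS0)
        (mul_le_one₀ (by linarith) hS0 hS1)
    have hc1m : 0 ≤ c1 * m := mul_nonneg hc1 hm
    calc -(c1 * m) ≤ (1 - P) * ((1 - A * B) * S) * (-(c1 * m)) := by nlinarith
      _ ≤ (1 - P) * ((1 - A * B) * S) * (t * w) := mul_le_mul_of_nonneg_left e1 hq0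
      _ = _ := by ring
  -- (iii)
  have i3 : T * (s * (u + m)) - c2 * (χ * m) ≤ (1 - P) * ((1 - A * B) * (T * (s * u))) := by
    by_cases h0 : T * s = 0
    · have e1 : T * (s * (u + m)) = 0 := by rw [← mul_assoc, h0, zero_mul]
      have e2 : T * (s * u) = 0 := by rw [← mul_assoc, h0, zero_mul]
      rw [e1, e2]
      have := mul_nonneg hc2 hχm
      simp only [mul_zero]
      linarith
    obtain ⟨e1, e2, e3⟩ := k2 h0
    rw [e1, e2, e3]
    have h3 : T * s * m ≤ 1 * c2 * m :=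
      mul_le_mul_of_nonneg_right (mul_le_mul hT1 hs1 hs0 zero_le_one) hm
    nlinarith
  -- (iv)
  have i4 : -(c3 * (χ * m)) ≤ (1 - P) * ((1 - T * S) * (B * (a * v))) := by
    by_cases h0 : a = 0
    · rw [h0]
      have := mul_nonneg hc3 hχm
      simp only [zero_mul, mul_zero]
      linarith
    by_cases h1 : P = 1
    · rw [h1]
      have := mul_nonneg hc3 hχm
      simp only [sub_self, zero_mul]
      linarith
    rw [k3 h0 h1, one_mul]
    have e1 : -(c3 * m) ≤ a * v := by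
      have : a * (-m) ≤ a * v := mul_le_mul_of_nonneg_left hv ha0
      have h3 : a * m ≤ c3 * m := mul_le_mul_of_nonneg_right ha1 hm
      linarith
    have hq0 : 0 ≤ (1 - P) * ((1 - T * S) * B) :=
      mul_nonneg (by linarith) (mul_nonneg (by linarith) hB0)
    have hq1 : (1 - P) * ((1 - T * S) * B) ≤ 1 :=
      mul_le_one₀ (by linarith) (mul_nonneg (by linarith) hB0)
        (mul_le_one₀ (by linarith) hB0 hB1)
    have hc1m : 0 ≤ c3 * m := mul_nonneg hc3 hm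
    calc -(c3 * m) ≤ (1 - P) * ((1 - T * S) * B) * (-(c3 * m)) := by nlinarith
      _ ≤ (1 - P) * ((1 - T * S) * B) * (a * v) := mul_le_mul_of_nonneg_left e1 hq0
      _ = _ := by ring
  -- (v)
  have i5 : A * (b * (u + m)) - c4 * (χ * m) ≤ (1 - P) * ((1 - T * S) * (A * (b * u))) := by
    by_cases h0 : A * b = 0
    · have e1 : A * (b * (u + m)) = 0 := by rw [← mul_assoc, h0, zero_mul]
      have e2 : A * (b * u) = 0 := by rw [← mul_assoc, h0, zero_mul]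
      rw [e1, e2]
      have := mul_nonneg hc4 hχm
      simp only [mul_zero]
      linarith
    obtain ⟨e1, e2, e3⟩ := k4 h0
    rw [e1, e2, e3]
    have h3 : A * b * m ≤ 1 * c4 * m :=
      mul_le_mul_of_nonneg_right (mul_le_mul hA1 hb1 hb0 zero_le_one) hm
    nlinarith
  have e : (1 - P) *
        ((1 - A * B) * (S * (t * w) + T * (s * u)) + (1 - T * S) * (B * (a * v) + A * (b * u)))
      = (1 - P) * ((1 - A * B) * (S * (t * w))) + (1 - P) * ((1 - A * B) * (T * (s * u)))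
        + (1 - P) * ((1 - T * S) * (B * (a * v))) + (1 - P) * ((1 - T * S) * (A * (b * u))) := by
    ring
  rw [e]
  linarith

end Pool.Agent.Q88.VL
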